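import Pool.Agent.W619.Y.Stm11
import Pool.Agent.W619.Y.Eqv

set_option autoImplicit false
set_option linter.overlappingInstances false
set_option linter.unusedSectionVars false

universe u v

open FF IntermediateField Pool.Agent.W619.PQ Pool.Agent.W619.PL Pool.Agent.W619.TW
  Pool.Agent.W603.LV Pool.Agent.W619.Y

namespace Pool.Agent.W340.PG.MULP

section

variable {k : Type v} {L : Type u} [Field k] [CharZero k] [Field L] [Algebra k L]

theorem indep_mul {n m1 m N : ℕ} {η : (Fin n → Derivation k L L) → L}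
    (hn : Algebra.trdeg k L = n) (hη : IsPluriForm k L n m1 η) (hne : ∃ D, η D ≠ 0)
    (ω : Fin N → (Fin n → Derivation k L L) → L) (hω : LinearIndependent k ω)
    (hp : ∀ l, IsPluriForm k L n m (ω l)) :
    LinearIndependent k (fun l => fun D => ω l D * (η D) ^ m) := by
  obtain ⟨y, hy⟩ := exists_fin_basis n hn
  choose E hE using fun j => exists_dual y hy j
  have hE' : ∀ i j, E i (y j) = if i = j then 1 else 0 := by
    intro i j
    rw [hE i j]
    by_cases h : i = j
    · rw [if_pos h.symm, if_pos h]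
    · rw [if_neg (fun h' => h h'.symm), if_neg h]
  have hηE : η E ≠ 0 := by
    obtain ⟨D, hD⟩ := hne
    intro h0
    apply hD
    rw [pluri_frame hη y hy E hE' D, h0, mul_zero]
  rw [Fintype.linearIndependent_iff] at hω ⊢
  intro c hc
  apply hω c
  have h1 : (∑ l, c l • ω l E) = 0 := by
    have h2 := congrFun hc E
    simp only [Finset.sum_apply, Pi.smul_apply, Pi.zero_apply] at h2
    have h3 : (∑ l, c l • ω l E) * (η E) ^ m = 0 := by
      rw [Finset.sum_mul, ← h2]
      refine Finset.sum_congr rfl fun l _ => ?_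
      rw [smul_mul_assoc]
    exact (mul_eq_zero.1 h3).resolve_right (pow_ne_zero _ hηE)
  funext D
  simp only [Finset.sum_apply, Pi.smul_apply, Pi.zero_apply]
  have h4 : ∀ l, c l • ω l D
      = (Matrix.of fun a b => D a (y b)).det ^ m * (c l • ω l E) := by
    intro l
    rw [pluri_frame (hp l) y hy E hE' D, mul_smul_comm]
  rw [Finset.sum_congr rfl fun l _ => h4 l, ← Finset.mul_sum, h1, mul_zero]

end

theorem main : S_MULP.{u, v} := by
  intro k L _ _ _ _ n m1 η T δ hn hm1 hη hne hδ hreg a hnum S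
  obtain ⟨C, hC⟩ := hnum S
  refine ⟨C * (1 + m1) ^ a, fun m N hm hind => ?_⟩
  obtain ⟨ω, hω, hsec⟩ := hind
  have key : N ≤ C * (m + m * m1) ^ a := by
    refine hC (m + m * m1) N (by omega) ⟨fun l => fun D => ω l D * (η D) ^ m,
      indep_mul hn hη hne ω hω (fun l => (hsec l).1), fun l => ⟨?_, ?_, ?_⟩⟩
    · intro A D
      show ω l _ * (η _) ^ m = A.det ^ (m + m * m1) * (ω l D * (η D) ^ m)
      rw [(hsec l).1 A D, hη A D, mul_pow, ← pow_mul, pow_add, mul_comm m m1]
      ring
    · intro w hw _ D hD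
      by_cases h0 : ω l D * (η D) ^ m = 0
      · exact Or.inl h0
      right
      have hωD : ω l D ≠ 0 := left_ne_zero_of_mul h0
      have hpow : (η D) ^ m ≠ 0 := right_ne_zero_of_mul h0
      have hηD : η D ≠ 0 := fun h => hpow (by rw [h, zero_pow (by omega)])
      obtain ⟨s, hs, hs0, hle⟩ := ((hsec l).2 w hw D hD).resolve_left hωD
      obtain ⟨t, ht, ht0, hδt⟩ := hδ w hw
      have hr := hreg t ht w hw D hD
      have hr' : 0 ≤ w.ord (t * η D) := hr.resolve_left (mul_ne_zero ht0 hηD)
      rw [w.ord_mul ht0 hηD] at hr'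
      refine ⟨s, hs, hs0, ?_⟩
      rw [w.ord_mul hωD hpow, w.ord_pow]
      have hrq : (0 : ℚ) ≤ (w.ord t : ℚ) + (w.ord (η D) : ℚ) := by exact_mod_cast hr'
      have h1 : (m : ℚ) * δ w ≤ (m : ℚ) * (w.ord (η D) : ℚ) := by
        apply mul_le_mul_of_nonneg_left _ (by positivity)
        linarith
      have h2 : ((1 : ℕ) : ℚ) * (w.ord s : ℚ) ≤
          (w.ord (ω l D) : ℚ) + (m : ℚ) * (w.ord (η D) : ℚ) := by linarith
      exact_mod_cast h2
    · intro w _ hf
      exact hf.elim
  calc N ≤ C * (m + m * m1) ^ a := key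
    _ = C * (1 + m1) ^ a * m ^ a := by
      have : m + m * m1 = (1 + m1) * m := by ring
      rw [this, mul_pow, mul_assoc]

end Pool.Agent.W340.PG.MULP
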